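import Mathlib

/-!
# The monic integer transfinite diameter of Farey intervals

For every Farey interval `I = [a₁/b₁, a₂/b₂]` (with `b₁, b₂ ≥ 2` and `|a₁ b₂ - a₂ b₁| = 1`) the
monic integer transfinite diameter of `I` is `max (1/b₁) (1/b₂)`, as asked by Borwein, Pinner and
Pritsker.

Idea: let `s` be the smaller and `l` the larger denominator.  The linear polynomials
`u = s x - a_s`, `v = l x - a_l` satisfy `|u| ≤ 1/l` and `|v| ≤ 1/s` on `I`.  A polynomial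
`∑ c_i u^i v^(n-i)` has `n`-th coefficient `∑ c_i s^i l^(n-i)`, and the `c_i` can be chosen as
`s`-adic digits for `i < n`, the last one being the remaining quotient, so that the sum is `1`; all
terms are then `O(s^(-n))` on `I`, uniformly.
-/

open Polynomial Filter Topology

namespace Pool.Agent.Results.MP_1bffc6_nt.FareyFull

/-- The supremum of `|P z|` over `z ∈ E` (a maximum when `E` is compact and nonempty). -/
noncomputable def supNormOn (E : Set ℂ) (P : ℤ[X]) : ℝ :=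
  sSup ((fun z : ℂ => ‖aeval z P‖) '' E)

/-- `m_n(E)`: the infimum (a minimum in the cases considered) of `max_E |P|` over the monic integer
polynomials `P` of degree exactly `n`. -/
noncomputable def minMonicNorm (E : Set ℂ) (n : ℕ) : ℝ :=
  sInf {M : ℝ | ∃ P : ℤ[X], P.Monic ∧ P.natDegree = n ∧ supNormOn E P = M}

/-- The real interval `[a, b]`, as a subset of `ℂ`. -/
def realInterval (a b : ℝ) : Set ℂ := (fun x : ℝ => (x : ℂ)) '' Set.Icc a b

/-- The construction: `s < l` coprime, `s ≥ 1`; `u = s x - a`, `v = l x - c`; for every `n` and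
every integer `r` there is an integer polynomial of degree at most `n` with `n`-th coefficient `r`
and with small values wherever `|s x - a| ≤ 1/l` and `|l x - c| ≤ 1/s`. -/
lemma exists_poly (s l a c : ℤ) (hs : 1 ≤ s) (hsl : s < l) (hcop : IsCoprime s l) (n : ℕ) :
    ∀ r : ℤ, ∃ P : ℤ[X], P.natDegree ≤ n ∧ P.coeff n = r ∧
      ∀ x : ℝ, |(s : ℝ) * x - a| ≤ (l : ℝ)⁻¹ → |(l : ℝ) * x - c| ≤ (s : ℝ)⁻¹ →
        |aeval x P| ≤ |(r : ℝ)| * ((s : ℝ)⁻¹ * (l : ℝ)⁻¹) ^ n + 2 * s * l * ((s : ℝ)⁻¹) ^ n := by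
  have hsR : (1 : ℝ) ≤ s := by exact_mod_cast hs
  have hlR : (s : ℝ) + 1 ≤ l := by exact_mod_cast hsl
  have hs0 : (0 : ℝ) < s := by linarith
  have hl0 : (0 : ℝ) < l := by linarith
  induction n with
  | zero =>
    intro r
    refine ⟨C r, by simp, by simp, ?_⟩
    intro x _ _
    simp only [aeval_C, pow_zero, mul_one]
    have : (0 : ℝ) ≤ 2 * s * l := by positivity
    simpa using this
  | succ n ih =>
    intro r
    -- choose the digit
    obtain ⟨d, hd0, hds, q, hq⟩ : ∃ d : ℤ, 0 ≤ d ∧ d < s ∧ ∃ q : ℤ, r = d * l ^ (n + 1) + s * q := by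
      have hc : IsCoprime s (l ^ (n + 1)) := hcop.pow_right
      obtain ⟨α, β, hαβ⟩ := hc
      refine ⟨(r * β) % s, Int.emod_nonneg _ (by omega), Int.emod_lt_of_pos _ (by omega), ?_⟩
      have h1 : r * β = (r * β) % s + s * ((r * β) / s) := (Int.emod_add_mul_ediv _ _).symm
      refine ⟨r * α + ((r * β) / s) * l ^ (n + 1), ?_⟩
      have h2 : r = r * (α * s + β * l ^ (n + 1)) := by rw [hαβ, mul_one]
      calc r = r * (α * s + β * l ^ (n + 1)) := h2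
        _ = (r * β) * l ^ (n + 1) + s * (r * α) := by ring
        _ = ((r * β) % s + s * ((r * β) / s)) * l ^ (n + 1) + s * (r * α) := by rw [← h1]
        _ = _ := by ring
    obtain ⟨P, hPd, hPc, hPb⟩ := ih q
    refine ⟨C d * (C l * X - C c) ^ (n + 1) + (C s * X - C a) * P, ?_, ?_, ?_⟩
    · have h1 : (C d * (C l * X - C c) ^ (n + 1) : ℤ[X]).natDegree ≤ n + 1 := by
        refine (natDegree_C_mul_le _ _).trans ?_
        refine natDegree_pow_le.trans ?_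
        have : (C l * X - C c : ℤ[X]).natDegree ≤ 1 := by
          compute_degree
        nlinarith
      have h2 : ((C s * X - C a) * P : ℤ[X]).natDegree ≤ n + 1 := by
        refine natDegree_mul_le.trans ?_
        have : (C s * X - C a : ℤ[X]).natDegree ≤ 1 := by
          compute_degree
        omega
      exact (natDegree_add_le _ _).trans (max_le h1 h2)
    · rw [coeff_add, coeff_C_mul]
      have h1 : ((C l * X - C c : ℤ[X]) ^ (n + 1)).coeff (n + 1) = l ^ (n + 1) := by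
        have hdeg : (C l * X - C c : ℤ[X]).natDegree ≤ 1 := by compute_degree
        have := coeff_pow_of_natDegree_le (m := n + 1) hdeg
        rw [mul_one] at this
        rw [this, coeff_sub, coeff_C_mul, coeff_X_one, coeff_C, if_neg one_ne_zero, sub_zero,
          mul_one]
      have h2 : ((C s * X - C a : ℤ[X]) * P).coeff (n + 1) = s * q := by
        rw [sub_mul, coeff_sub, mul_assoc, coeff_C_mul, coeff_C_mul, coeff_X_mul, hPc,
          coeff_eq_zero_of_natDegree_lt (by omega : P.natDegree < n + 1)]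
        ring
      rw [h1, h2, hq]
    · intro x hx1 hx2
      have hP := hPb x hx1 hx2
      have hd0R : (0 : ℝ) ≤ d := by exact_mod_cast hd0
      have hdsR : (d : ℝ) ≤ s - 1 := by
        have : d ≤ s - 1 := by omega
        exact_mod_cast this
      have hqR : |(q : ℝ)| ≤ (s : ℝ)⁻¹ * (|(r : ℝ)| + d * (l : ℝ) ^ (n + 1)) := by
        have : (q : ℝ) = (s : ℝ)⁻¹ * (r - d * (l : ℝ) ^ (n + 1)) := by
          rw [hq]; push_cast; field_simp; ring
        rw [this, abs_mul, abs_of_pos (inv_pos.mpr hs0)]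
        refine mul_le_mul_of_nonneg_left ?_ (inv_pos.mpr hs0).le
        refine (abs_sub _ _).trans ?_
        rw [abs_of_nonneg (by positivity : (0 : ℝ) ≤ d * (l : ℝ) ^ (n + 1))]
      have e1 : aeval x (C d * (C l * X - C c) ^ (n + 1) + (C s * X - C a) * P : ℤ[X])
          = d * ((l : ℝ) * x - c) ^ (n + 1) + ((s : ℝ) * x - a) * aeval x P := by
        simp
      rw [e1]
      have t1 : |(d : ℝ) * ((l : ℝ) * x - c) ^ (n + 1)| ≤ d * ((s : ℝ)⁻¹) ^ (n + 1) := by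
        rw [abs_mul, abs_of_nonneg hd0R, abs_pow]
        exact mul_le_mul_of_nonneg_left (pow_le_pow_left₀ (abs_nonneg _) hx2 _) hd0R
      have t2 : |((s : ℝ) * x - a) * aeval x P| ≤
          (l : ℝ)⁻¹ * (|(q : ℝ)| * ((s : ℝ)⁻¹ * (l : ℝ)⁻¹) ^ n + 2 * s * l * ((s : ℝ)⁻¹) ^ n) := by
        rw [abs_mul]
        exact mul_le_mul hx1 hP (abs_nonneg _) (inv_pos.mpr hl0).le
      have t3 : |(q : ℝ)| * ((s : ℝ)⁻¹ * (l : ℝ)⁻¹) ^ n ≤
          (s : ℝ)⁻¹ * (|(r : ℝ)| + d * (l : ℝ) ^ (n + 1)) * ((s : ℝ)⁻¹ * (l : ℝ)⁻¹) ^ n :=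
        mul_le_mul_of_nonneg_right hqR (by positivity)
      have key : (d : ℝ) * ((s : ℝ)⁻¹) ^ (n + 1) + (l : ℝ)⁻¹ *
          ((s : ℝ)⁻¹ * (|(r : ℝ)| + d * (l : ℝ) ^ (n + 1)) * ((s : ℝ)⁻¹ * (l : ℝ)⁻¹) ^ n
            + 2 * s * l * ((s : ℝ)⁻¹) ^ n)
          = |(r : ℝ)| * ((s : ℝ)⁻¹ * (l : ℝ)⁻¹) ^ (n + 1)
            + (2 * d + 2 * s * s) * ((s : ℝ)⁻¹) ^ (n + 1) := by
        rw [pow_succ ((s : ℝ)⁻¹ * (l : ℝ)⁻¹), pow_succ ((s : ℝ)⁻¹), mul_pow, pow_succ (l : ℝ)]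
        have h3 : (l : ℝ) ^ n * ((l : ℝ)⁻¹) ^ n = 1 := by
          rw [← mul_pow, mul_inv_cancel₀ hl0.ne', one_pow]
        have h4 : (l : ℝ) * (l : ℝ)⁻¹ = 1 := mul_inv_cancel₀ hl0.ne'
        have h5 : (s : ℝ) * (s : ℝ)⁻¹ = 1 := mul_inv_cancel₀ hs0.ne'
        linear_combination (d * (s : ℝ)⁻¹ ^ n * (s : ℝ)⁻¹ * ((l : ℝ) * (l : ℝ)⁻¹)) * h3
          + (d * (s : ℝ)⁻¹ ^ n * (s : ℝ)⁻¹ + 2 * s * (s : ℝ)⁻¹ ^ n) * h4
          - (2 * s * (s : ℝ)⁻¹ ^ n) * h5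
      have fin : (2 * d + 2 * s * s : ℝ) ≤ 2 * s * l := by nlinarith
      calc |(d : ℝ) * ((l : ℝ) * x - c) ^ (n + 1) + ((s : ℝ) * x - a) * aeval x P|
          ≤ |(d : ℝ) * ((l : ℝ) * x - c) ^ (n + 1)| + |((s : ℝ) * x - a) * aeval x P| :=
            abs_add_le _ _
        _ ≤ (d : ℝ) * ((s : ℝ)⁻¹) ^ (n + 1) + (l : ℝ)⁻¹ *
          ((s : ℝ)⁻¹ * (|(r : ℝ)| + d * (l : ℝ) ^ (n + 1)) * ((s : ℝ)⁻¹ * (l : ℝ)⁻¹) ^ n
            + 2 * s * l * ((s : ℝ)⁻¹) ^ n) := by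
            refine add_le_add t1 (t2.trans ?_)
            exact mul_le_mul_of_nonneg_left (by linarith) (inv_pos.mpr hl0).le
        _ = _ := key
        _ ≤ _ := by
            have : (0 : ℝ) ≤ ((s : ℝ)⁻¹) ^ (n + 1) := by positivity
            nlinarith [mul_le_mul_of_nonneg_right fin this]

/-- Lower bound: a monic integer polynomial of degree `n` is at least `b ^ (-n)` in absolute value
at a fraction `a / b` in lowest terms with `b ≥ 2`. -/
lemma inv_pow_le_abs_aeval (a b : ℤ) (hb : 2 ≤ b) (hab : IsCoprime a b) (P : ℤ[X])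
    (hP : P.Monic) : ((b : ℝ)⁻¹) ^ P.natDegree ≤ |aeval ((a : ℝ) / b) P| := by
  have hb0 : (0 : ℝ) < b := by exact_mod_cast (by omega : (0 : ℤ) < b)
  have hne : aeval ((a : ℝ) / b) P ≠ 0 := by
    intro h0
    have hQ : aeval ((a : ℚ) / b) P = 0 := by
      have h1 : aeval ((((a : ℚ) / b : ℚ)) : ℝ) P = ((aeval ((a : ℚ) / b) P : ℚ) : ℝ) := by
        simpa using aeval_algebraMap_apply ℝ ((a : ℚ) / b) P
      have h2 : ((((a : ℚ) / b : ℚ)) : ℝ) = (a : ℝ) / b := by push_cast; rfl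
      rw [h2, h0] at h1
      exact_mod_cast h1.symm
    obtain ⟨z, hz⟩ := isInteger_of_is_root_of_monic hP hQ
    have hbQ : (b : ℚ) ≠ 0 := by exact_mod_cast (by omega : b ≠ 0)
    have h3 : (z : ℚ) * b = a := by
      have : (z : ℚ) = (a : ℚ) / b := by simpa using hz
      rw [this]; field_simp
    have h4 : z * b = a := by exact_mod_cast h3
    have h5 : IsUnit b := hab.isUnit_of_dvd' ⟨z, by rw [← h4]; ring⟩ dvd_rfl
    rcases Int.isUnit_iff.mp h5 with h | h <;> omega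
  have h1 := one_le_pow_mul_abs_eval_div (K := ℝ) (f := P) (a := a) (b := b) (by omega)
    (by rwa [eval_map_algebraMap])
  rw [eval_map_algebraMap] at h1
  rw [inv_pow, inv_le_iff_one_le_mul₀ (pow_pos hb0 _), mul_comm]
  exact h1

lemma norm_aeval_ofReal (x : ℝ) (P : ℤ[X]) : ‖aeval (x : ℂ) P‖ = |aeval x P| := by
  have h : aeval (x : ℂ) P = ((aeval x P : ℝ) : ℂ) := by
    simpa using aeval_algebraMap_apply ℂ x P
  rw [h, Complex.norm_real, Real.norm_eq_abs]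

lemma isCompact_realInterval (p q : ℝ) : IsCompact (realInterval p q) :=
  isCompact_Icc.image Complex.continuous_ofReal

lemma le_supNormOn (p q x : ℝ) (hx : x ∈ Set.Icc p q) (P : ℤ[X]) :
    |aeval x P| ≤ supNormOn (realInterval p q) P := by
  have hb : BddAbove ((fun z : ℂ => ‖aeval z P‖) '' realInterval p q) :=
    (isCompact_realInterval p q).bddAbove_image (P.continuous_aeval.norm.continuousOn)
  rw [← norm_aeval_ofReal]
  exact le_csSup hb ⟨(x : ℂ), ⟨x, hx, rfl⟩, rfl⟩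

lemma supNormOn_le (p q M : ℝ) (hpq : p ≤ q) (P : ℤ[X])
    (h : ∀ x ∈ Set.Icc p q, |aeval x P| ≤ M) : supNormOn (realInterval p q) P ≤ M := by
  refine csSup_le ?_ ?_
  · exact ⟨_, ⟨(p : ℂ), ⟨p, ⟨le_rfl, hpq⟩, rfl⟩, rfl⟩⟩
  · rintro _ ⟨_, ⟨x, hx, rfl⟩, rfl⟩
    simp only [norm_aeval_ofReal]
    exact h x hx

/-- Two-sided explicit bounds for `m_n`. -/
lemma bounds (s l a c : ℤ) (hs : 2 ≤ s) (hsl : s < l) (hcop : IsCoprime s l)
    (has : IsCoprime a s) (p q : ℝ) (hmem : (a : ℝ) / s ∈ Set.Icc p q)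
    (hI : ∀ x ∈ Set.Icc p q, |(s : ℝ) * x - a| ≤ (l : ℝ)⁻¹ ∧ |(l : ℝ) * x - c| ≤ (s : ℝ)⁻¹)
    (n : ℕ) :
    ((s : ℝ)⁻¹) ^ n ≤ minMonicNorm (realInterval p q) n ∧
      minMonicNorm (realInterval p q) n ≤ (1 + 2 * s * l) * ((s : ℝ)⁻¹) ^ n := by
  have hsR : (2 : ℝ) ≤ s := by exact_mod_cast hs
  have hlR : (s : ℝ) + 1 ≤ l := by exact_mod_cast hsl
  have hs0 : (0 : ℝ) < s := by linarith
  have hl0 : (0 : ℝ) < l := by linarith
  have hpq : p ≤ q := hmem.1.trans hmem.2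
  have low : ∀ P : ℤ[X], P.Monic → P.natDegree = n →
      ((s : ℝ)⁻¹) ^ n ≤ supNormOn (realInterval p q) P := by
    intro P hP hn
    have := inv_pow_le_abs_aeval a s hs has P hP
    rw [hn] at this
    exact this.trans (le_supNormOn p q _ hmem P)
  constructor
  · refine le_csInf ⟨_, X ^ n, monic_X_pow n, natDegree_X_pow n, rfl⟩ ?_
    rintro M ⟨P, hP, hn, rfl⟩
    exact low P hP hn
  · obtain ⟨P, hPd, hPc, hPb⟩ := exists_poly s l a c (by omega) hsl hcop n 1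
    have hPm : P.Monic := monic_of_natDegree_le_of_coeff_eq_one n hPd hPc
    have hPn : P.natDegree = n :=
      le_antisymm hPd (le_natDegree_of_ne_zero (by rw [hPc]; exact one_ne_zero))
    have hle : supNormOn (realInterval p q) P ≤ (1 + 2 * s * l) * ((s : ℝ)⁻¹) ^ n := by
      refine supNormOn_le p q _ hpq P fun x hx => ?_
      refine (hPb x (hI x hx).1 (hI x hx).2).trans ?_
      have h1 : ((s : ℝ)⁻¹ * (l : ℝ)⁻¹) ^ n ≤ ((s : ℝ)⁻¹) ^ n := by
        refine pow_le_pow_left₀ (by positivity) ?_ n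
        have : (l : ℝ)⁻¹ ≤ 1 := inv_le_one_of_one_le₀ (by linarith)
        exact mul_le_of_le_one_right (by positivity) this
      have h2 : |((1 : ℤ) : ℝ)| = 1 := by simp
      rw [h2]
      linarith
    have hbdd : BddBelow {M : ℝ | ∃ P : ℤ[X], P.Monic ∧ P.natDegree = n ∧
        supNormOn (realInterval p q) P = M} := by
      refine ⟨((s : ℝ)⁻¹) ^ n, ?_⟩
      rintro M ⟨Q, hQ, hn, rfl⟩
      exact low Q hQ hn
    exact (csInf_le hbdd ⟨P, hPm, hPn, rfl⟩).trans hle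

lemma tendsto_aux (s l a c : ℤ) (hs : 2 ≤ s) (hsl : s < l) (hcop : IsCoprime s l)
    (has : IsCoprime a s) (p q : ℝ) (hmem : (a : ℝ) / s ∈ Set.Icc p q)
    (hI : ∀ x ∈ Set.Icc p q, |(s : ℝ) * x - a| ≤ (l : ℝ)⁻¹ ∧ |(l : ℝ) * x - c| ≤ (s : ℝ)⁻¹) :
    Tendsto (fun n : ℕ => minMonicNorm (realInterval p q) n ^ (1 / (n : ℝ))) atTop
      (𝓝 ((s : ℝ)⁻¹)) := by
  have hsR : (2 : ℝ) ≤ s := by exact_mod_cast hs
  have hlR : (s : ℝ) + 1 ≤ l := by exact_mod_cast hsl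
  have hs0 : (0 : ℝ) < s := by linarith
  have hl0 : (0 : ℝ) < l := by linarith
  have hK : (0 : ℝ) < 1 + 2 * s * l := by positivity
  have hlim : Tendsto (fun n : ℕ => (1 + 2 * s * l : ℝ) ^ (1 / (n : ℝ)) * (s : ℝ)⁻¹) atTop
      (𝓝 ((s : ℝ)⁻¹)) := by
    have h1 : Tendsto (fun n : ℕ => (1 + 2 * s * l : ℝ) ^ (1 / (n : ℝ))) atTop
        (𝓝 ((1 + 2 * s * l : ℝ) ^ (0 : ℝ))) :=
      ((Real.continuousAt_const_rpow hK.ne').tendsto).comp tendsto_one_div_atTop_nhds_zero_nat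
    rw [Real.rpow_zero] at h1
    simpa using h1.mul_const ((s : ℝ)⁻¹)
  have hpow : ∀ n : ℕ, 1 ≤ n → (((s : ℝ)⁻¹) ^ n) ^ (1 / (n : ℝ)) = (s : ℝ)⁻¹ := by
    intro n hn
    rw [one_div]
    exact Real.pow_rpow_inv_natCast (by positivity) (by omega)
  refine tendsto_of_tendsto_of_tendsto_of_le_of_le' tendsto_const_nhds hlim ?_ ?_
  · filter_upwards [eventually_ge_atTop 1] with n hn
    rw [← hpow n hn]
    exact Real.rpow_le_rpow (by positivity) (bounds s l a c hs hsl hcop has p q hmem hI n).1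
      (by positivity)
  · filter_upwards [eventually_ge_atTop 1] with n hn
    have hb := bounds s l a c hs hsl hcop has p q hmem hI n
    calc minMonicNorm (realInterval p q) n ^ (1 / (n : ℝ))
        ≤ ((1 + 2 * s * l) * ((s : ℝ)⁻¹) ^ n) ^ (1 / (n : ℝ)) :=
          Real.rpow_le_rpow (le_trans (by positivity) hb.1) hb.2 (by positivity)
      _ = (1 + 2 * s * l : ℝ) ^ (1 / (n : ℝ)) * (s : ℝ)⁻¹ := by
          rw [Real.mul_rpow hK.le (by positivity), hpow n hn]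

/-- **Borwein–Pinner–Pritsker conjecture on Farey intervals.**  For every Farey interval
`I = [a₁/b₁, a₂/b₂]` with `b₁, b₂ ≥ 2`, the limit `lim m_n(I)^(1/n)` defining the monic integer
transfinite diameter exists and equals `max (1/b₁) (1/b₂)`. -/
theorem result (a₁ a₂ b₁ b₂ : ℤ) (hb₁ : 2 ≤ b₁) (hb₂ : 2 ≤ b₂)
    (hdet : |a₁ * b₂ - a₂ * b₁| = 1) (hlt : (a₁ : ℝ) / b₁ < (a₂ : ℝ) / b₂) :
    Tendsto
      (fun n : ℕ => minMonicNorm (realInterval ((a₁ : ℝ) / b₁) ((a₂ : ℝ) / b₂)) n ^ (1 / (n : ℝ)))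
      atTop (𝓝 (max (1 / (b₁ : ℝ)) (1 / (b₂ : ℝ)))) := by
  have hb₁R : (2 : ℝ) ≤ b₁ := by exact_mod_cast hb₁
  have hb₂R : (2 : ℝ) ≤ b₂ := by exact_mod_cast hb₂
  have h1 : (0 : ℝ) < b₁ := by linarith
  have h2 : (0 : ℝ) < b₂ := by linarith
  -- the determinant is `1` in the order given
  have hdet' : a₂ * b₁ - a₁ * b₂ = 1 := by
    have hR : (a₁ : ℝ) * b₂ < a₂ * b₁ := by
      rwa [div_lt_div_iff₀ h1 h2] at hlt
    have hZ : a₁ * b₂ < a₂ * b₁ := by exact_mod_cast hR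
    rw [abs_of_neg (by omega)] at hdet
    omega
  have hdetR : (a₂ : ℝ) * b₁ - a₁ * b₂ = 1 := by exact_mod_cast hdet'
  have hc12 : IsCoprime b₁ b₂ := ⟨a₂, -a₁, by linarith⟩
  have hca₁ : IsCoprime a₁ b₁ := ⟨-b₂, a₂, by linarith⟩
  have hca₂ : IsCoprime a₂ b₂ := ⟨b₁, -a₁, by linarith⟩
  have hI : ∀ x ∈ Set.Icc ((a₁ : ℝ) / b₁) ((a₂ : ℝ) / b₂),
      |(b₁ : ℝ) * x - a₁| ≤ (b₂ : ℝ)⁻¹ ∧ |(b₂ : ℝ) * x - a₂| ≤ (b₁ : ℝ)⁻¹ := by
    rintro x ⟨hx1, hx2⟩
    rw [div_le_iff₀ h1] at hx1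
    rw [le_div_iff₀ h2] at hx2
    constructor
    · rw [abs_of_nonneg (by linarith), ← one_div, le_div_iff₀ h2]
      nlinarith
    · rw [abs_of_nonpos (by linarith), ← one_div, le_div_iff₀ h1]
      nlinarith
  rcases lt_trichotomy b₁ b₂ with hlt' | heq | hgt
  · have hmax : max (1 / (b₁ : ℝ)) (1 / (b₂ : ℝ)) = (b₁ : ℝ)⁻¹ := by
      rw [one_div, one_div]
      exact max_eq_left ((inv_le_inv₀ h2 h1).mpr (by exact_mod_cast hlt'.le))
    rw [hmax]
    exact tendsto_aux b₁ b₂ a₁ a₂ hb₁ hlt' hc12 hca₁ _ _ ⟨le_rfl, hlt.le⟩ hI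
  · exfalso
    subst heq
    have h3 : (a₂ - a₁) * b₁ = 1 := by linarith
    have := Int.isUnit_iff.mp (IsUnit.of_mul_eq_one_right _ h3)
    omega
  · have hmax : max (1 / (b₁ : ℝ)) (1 / (b₂ : ℝ)) = (b₂ : ℝ)⁻¹ := by
      rw [one_div, one_div]
      exact max_eq_right ((inv_le_inv₀ h1 h2).mpr (by exact_mod_cast hgt.le))
    rw [hmax]
    exact tendsto_aux b₂ b₁ a₂ a₁ hb₂ hgt hc12.symm hca₂ _ _ ⟨hlt.le, le_rfl⟩
      (fun x hx => ⟨(hI x hx).2, (hI x hx).1⟩)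

end Pool.Agent.Results.MP_1bffc6_nt.FareyFull
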